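import Pool.Agent.Lib.H94S.Main

/-!
# MP_745454_al: infinite simple biprimitively finite p-groups, p odd
-/

set_option autoImplicit false
namespace Pool.Agent.Results.MP_745454_al.SimplePGroups

/-- The quotient `N_G(H)/H`. -/
abbrev NQ {G : Type} [Group G] (H : Subgroup G) : Type :=
  Subgroup.normalizer (H : Set G) ⧸ H.subgroupOf (Subgroup.normalizer (H : Set G))

/-- `G` is biprimitively finite: for every finite subgroup `H`, any two elements of prime order of
`N_G(H)/H` generate a finite subgroup. -/
def BiprimitivelyFinite (G : Type) [Group G] : Prop :=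
  ∀ H : Subgroup G, (H : Set G).Finite → ∀ a b : NQ H, (orderOf a).Prime → (orderOf b).Prime →
    ((Subgroup.closure {a, b} : Subgroup (NQ H)) : Set (NQ H)).Finite

/-- `G` is conjugacy biprimitively finite: the same for any two conjugate elements of prime order of
`N_G(H)/H`. -/
def ConjBiprimitivelyFinite (G : Type) [Group G] : Prop :=
  ∀ H : Subgroup G, (H : Set G).Finite → ∀ a b : NQ H, (orderOf a).Prime → IsConj a b →
    ((Subgroup.closure {a, b} : Subgroup (NQ H)) : Set (NQ H)).Finite

theorem result (p : ℕ) (hp : p.Prime) (hp2 : p ≠ 2) (k : ℕ) :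
    ∃ (G : Type) (_ : Group G), Infinite G ∧ IsSimpleGroup G ∧ (∀ g : G, IsOfFinOrder g) ∧
      BiprimitivelyFinite G ∧ ConjBiprimitivelyFinite G ∧ (∀ g : G, orderOf g ≠ 2) ∧
      (∀ g : G, ∃ n, orderOf g = p ^ n) ∧
      ∀ g : Fin k → G, ((Subgroup.closure (Set.range g) : Subgroup G) : Set G).Finite := by
  obtain ⟨G, iG, h1, h2, h3, h4⟩ := Pool.Agent.H94S.main p hp (k + 2)
  have : Fact p.Prime := ⟨hp⟩
  have hk : ∀ g : Fin k → G, ((Subgroup.closure (Set.range g) : Subgroup G) : Set G).Finite := by
    intro g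
    refine (h4 (Fin.append g ![1, 1])).subset (Subgroup.closure_mono ?_)
    rintro _ ⟨i, rfl⟩
    exact ⟨Fin.castAdd 2 i, Fin.append_left _ _ _⟩
  have h5 : ∀ a b : G, ((Subgroup.closure {a, b} : Subgroup G) : Set G).Finite := by
    intro a b
    refine (h4 (Fin.append (fun _ : Fin k => 1) ![a, b])).subset (Subgroup.closure_mono ?_)
    rintro x (rfl | rfl)
    · exact ⟨Fin.natAdd k 0, Fin.append_right _ _ _⟩
    · exact ⟨Fin.natAdd k 1, Fin.append_right _ _ _⟩
  have h6 : ∀ (H : Subgroup G) (a b : NQ H),
      ((Subgroup.closure {a, b} : Subgroup (NQ H)) : Set (NQ H)).Finite := by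
    intro H a b
    obtain ⟨a, rfl⟩ := QuotientGroup.mk_surjective a
    obtain ⟨b, rfl⟩ := QuotientGroup.mk_surjective b
    have h7 : (Subgroup.closure {a, b}).map (Subgroup.normalizer (H : Set G)).subtype =
        Subgroup.closure {(a : G), (b : G)} := by
      rw [MonoidHom.map_closure, Set.image_pair]
      rfl
    have h8 : ((Subgroup.closure {a, b} : Subgroup (Subgroup.normalizer (H : Set G))) :
        Set (Subgroup.normalizer (H : Set G))).Finite := by
      refine Set.Finite.of_finite_image (f := (Subgroup.normalizer (H : Set G)).subtype) ?_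
        (Subtype.val_injective.injOn)
      rw [← Subgroup.coe_map, h7]
      exact h5 _ _
    have h9 : (Subgroup.closure {a, b}).map
        (QuotientGroup.mk' (H.subgroupOf (Subgroup.normalizer (H : Set G)))) =
        Subgroup.closure {(a : NQ H), (b : NQ H)} := by
      rw [MonoidHom.map_closure, Set.image_pair]
      rfl
    rw [← h9, Subgroup.coe_map]
    exact h8.image _
  have hord : ∀ g : G, ∃ n, orderOf g = p ^ n := fun g => IsPGroup.iff_orderOf.1 h3 g
  refine ⟨G, iG, h2, h1, ?_, fun H _ a b _ _ => h6 H a b, fun H _ a b _ _ => h6 H a b, ?_, hord, hk⟩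
  · intro g
    obtain ⟨n, hn⟩ := hord g
    rw [← orderOf_pos_iff, hn]
    exact pow_pos hp.pos n
  · intro g hg
    obtain ⟨n, hn⟩ := hord g
    rw [hg] at hn
    have h10 : p ∣ 2 ^ 1 := by
      rcases n with _ | n
      · simp at hn
      · rw [pow_one, hn]
        exact dvd_pow_self p (Nat.succ_ne_zero n)
    exact hp2 ((Nat.prime_dvd_prime_iff_eq hp Nat.prime_two).1 (by simpa using h10))

end Pool.Agent.Results.MP_745454_al.SimplePGroups
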